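import Pool.Agent.R260.GabB

set_option autoImplicit false

open Set Filter Topology Pool.Agent.R260.Gab

namespace Pool.Agent.Results.MP_9fecad_an.NoCommonMinimiser

/-- The polynomial `G_{α,β}` of the problem. -/
noncomputable def G (α : ℕ) (β : ℝ) (ξ : ℂ) : ℂ :=
  ∑ n ∈ Finset.range (α + 2), ((α + 1).choose n : ℂ) * (-ξ) ^ n / ((n : ℂ) + (β : ℂ))

/-- `X 0, ..., X α` are the zero branches of `G_{α,β}`, `-1 < β < 0`, indexed as in the problem:
continuous functions whose values are, for every `β`, pairwise distinct and exactly the zeros;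
`X 0` is the negative real branch and `X (α + 1 - k)` is the conjugate of `X k` for `k ≥ 1`. -/
structure IsBranches (α : ℕ) (X : ℕ → ℝ → ℂ) : Prop where
  cont : ∀ k ≤ α, ContinuousOn (X k) (Ioo (-1) 0)
  zeros : ∀ β ∈ Ioo (-1 : ℝ) 0, ∀ ξ : ℂ, G α β ξ = 0 ↔ ∃ k ≤ α, ξ = X k β
  distinct : ∀ β ∈ Ioo (-1 : ℝ) 0, ∀ k ≤ α, ∀ l ≤ α, X k β = X l β → k = l
  real : ∀ β ∈ Ioo (-1 : ℝ) 0, (X 0 β).im = 0 ∧ (X 0 β).re < 0
  conj : ∀ β ∈ Ioo (-1 : ℝ) 0, ∀ k, 1 ≤ k → k ≤ α → X (α + 1 - k) β = (starRingEnd ℂ) (X k β)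

lemma G_eq (β : ℝ) (ξ : ℂ) : G 3 β ξ = gc β ξ := by
  unfold G gc
  simp only [Finset.sum_range_succ, Finset.sum_range_zero]
  have c0 : (Nat.choose (3+1) 0 : ℂ) = 1 := by norm_num
  have c1 : (Nat.choose (3+1) 1 : ℂ) = 4 := by norm_num
  have c2 : (Nat.choose (3+1) 2 : ℂ) = 6 := by norm_num [Nat.choose]
  have c3 : (Nat.choose (3+1) 3 : ℂ) = 4 := by norm_num [Nat.choose]
  have c4 : (Nat.choose (3+1) 4 : ℂ) = 1 := by norm_num [Nat.choose]
  rw [c0, c1, c2, c3, c4]
  push_cast
  ring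

/-- the branches for `α = 3` -/
noncomputable def Y (k : ℕ) (β : ℝ) : ℂ :=
  match k with
  | 0 => ((-xx β : ℝ) : ℂ)
  | 1 => ⟨pp β / 2, -(Real.sqrt (4 * qq β - pp β ^ 2) / 2)⟩
  | 2 => ((bb β : ℝ) : ℂ)
  | 3 => ⟨pp β / 2, Real.sqrt (4 * qq β - pp β ^ 2) / 2⟩
  | _ => 0

lemma pp_cont : ContinuousOn pp (Ioo (-1) 0) := by
  unfold pp
  apply ContinuousOn.sub _ bb_cont
  apply ContinuousOn.add _ xx_cont
  apply ContinuousOn.div (by fun_prop) (by fun_prop)
  intro β hβ
  have := hβ.1
  intro h; linarith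

lemma qq_cont : ContinuousOn qq (Ioo (-1) 0) := by
  unfold qq
  apply ContinuousOn.add _ (xx_cont.mul bb_cont)
  apply ContinuousOn.sub _ (pp_cont.mul (bb_cont.sub xx_cont))
  apply ContinuousOn.div (by fun_prop) (by fun_prop)
  intro β hβ
  have := hβ.1
  intro h; linarith

lemma normSq_Y1 (β : ℝ) (h1 : -1 < β) (h2 : β < 0) : ‖Y 1 β‖ ^ 2 = qq β := by
  have hd := disc_pos β h1 h2
  rw [← Complex.normSq_eq_norm_sq]
  simp only [Y, Complex.normSq_mk]
  have := Real.mul_self_sqrt hd.le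
  nlinarith

lemma quad_roots (β : ℝ) (h1 : -1 < β) (h2 : β < 0) (ξ : ℂ) :
    ξ ^ 2 - pp β * ξ + qq β = (ξ - Y 1 β) * (ξ - Y 3 β) := by
  have hd := disc_pos β h1 h2
  have hs : Y 1 β + Y 3 β = (pp β : ℂ) := by
    apply Complex.ext <;> simp [Y]
  have hp : Y 1 β * Y 3 β = (qq β : ℂ) := by
    apply Complex.ext
    · simp only [Y, Complex.mul_re, Complex.ofReal_re]
      have := Real.mul_self_sqrt hd.le
      nlinarith
    · simp only [Y, Complex.mul_im, Complex.ofReal_im]
      ring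
  rw [← hs, ← hp]; ring

theorem branches : IsBranches 3 Y := by
  refine ⟨?_, ?_, ?_, ?_, ?_⟩
  · intro k hk
    have hcx : Continuous (fun x : ℝ => (x : ℂ)) := Complex.continuous_ofReal
    have hmk : ∀ (s : ℝ → ℝ), ContinuousOn s (Ioo (-1) 0) →
        ContinuousOn (fun β => (⟨pp β / 2, s β⟩ : ℂ)) (Ioo (-1) 0) := by
      intro s hs
      have e : (fun β => (⟨pp β / 2, s β⟩ : ℂ)) = fun β => ((pp β / 2 : ℝ) : ℂ) + (s β : ℝ) * Complex.I := by
        ext β
        apply Complex.ext <;> simp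
      rw [e]
      exact (hcx.comp_continuousOn (pp_cont.div_const 2)).add
        ((hcx.comp_continuousOn hs).mul continuousOn_const)
    have hsq : ContinuousOn (fun β => Real.sqrt (4 * qq β - pp β ^ 2) / 2) (Ioo (-1) 0) :=
      (((continuousOn_const.mul qq_cont).sub (pp_cont.pow 2)).sqrt).div_const 2
    rcases k with _ | _ | _ | _ | k
    · exact hcx.comp_continuousOn xx_cont.neg
    · exact hmk _ hsq.neg
    · exact hcx.comp_continuousOn bb_cont
    · exact hmk _ hsq
    · omega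
  · intro β hβ ξ
    have hf := factor_complex β hβ.1 hβ.2 ξ
    rw [quad_roots β hβ.1 hβ.2] at hf
    have h4 : (4 + (β:ℂ)) ≠ 0 := by
      have : (4 + β : ℝ) ≠ 0 := by have := hβ.1; intro h; linarith
      exact_mod_cast this
    rw [G_eq]
    constructor
    · intro h
      rw [h, mul_zero] at hf
      rcases mul_eq_zero.mp hf.symm with h3 | h3
      · rcases mul_eq_zero.mp h3 with h5 | h5
        · refine ⟨0, by norm_num, ?_⟩
          show ξ = ((-xx β : ℝ) : ℂ)
          push_cast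
          linear_combination h5
        · refine ⟨2, by norm_num, ?_⟩
          show ξ = ((bb β : ℝ) : ℂ)
          linear_combination h5
      · rcases mul_eq_zero.mp h3 with h5 | h5
        · exact ⟨1, by norm_num, by linear_combination h5⟩
        · exact ⟨3, by norm_num, by linear_combination h5⟩
    · rintro ⟨k, hk, rfl⟩
      have hz : (4 + (β:ℂ)) * gc β (Y k β) = 0 := by
        rw [hf]
        rcases k with _ | _ | _ | _ | k
        · have : Y 0 β + xx β = 0 := by show ((-xx β : ℝ) : ℂ) + xx β = 0; push_cast; ring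
          rw [this]; ring
        · ring
        · have : Y 2 β - bb β = 0 := by show ((bb β : ℝ) : ℂ) - bb β = 0; ring
          rw [show (0 + 1 + 1 : ℕ) = 2 by norm_num, this]; ring
        · ring
        · omega
      exact (mul_eq_zero.mp hz).resolve_left h4
  · intro β hβ k hk l hl hkl
    have hd := disc_pos β hβ.1 hβ.2
    have hs : 0 < Real.sqrt (4 * qq β - pp β ^ 2) := Real.sqrt_pos.mpr hd
    obtain ⟨hb, -⟩ := bb_spec hβ.1 hβ.2
    obtain ⟨hx, -⟩ := xx_spec hβ.1 hβ.2
    have hre := congrArg Complex.re hkl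
    have him := congrArg Complex.im hkl
    rcases k with _ | _ | _ | _ | k <;> rcases l with _ | _ | _ | _ | l <;>
      simp only [Y, Complex.ofReal_re, Complex.ofReal_im] at hre him <;>
      first
        | rfl
        | omega
        | (exfalso; linarith)
  · intro β hβ
    obtain ⟨hx, -⟩ := xx_spec hβ.1 hβ.2
    constructor
    · simp [Y]
    · simp only [Y, Complex.ofReal_re]; linarith
  · intro β hβ k hk1 hk
    rcases k with _ | _ | _ | _ | k
    · omega
    · apply Complex.ext <;> simp [Y]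
    · apply Complex.ext <;> simp [Y]
    · apply Complex.ext <;> simp [Y]
    · omega

/-- Every enumeration of the branches for `α = 3` contains the positive real branch with a fixed
index, and the two other ones have modulus squared `qq β`. -/
lemma index_real (X : ℕ → ℝ → ℂ) (hX : IsBranches 3 X) : ∃ k, 1 ≤ k ∧ k ≤ 3 ∧
    ∀ β ∈ Ioo (-1 : ℝ) 0, X k β = bb β := by
  -- the index at a point
  have hpt : ∀ β ∈ Ioo (-1 : ℝ) 0, ∃ k ≤ 3, X k β = bb β := by
    intro β hβ
    have hz : G 3 β (bb β) = 0 := (branches.zeros β hβ _).mpr ⟨2, by norm_num, rfl⟩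
    obtain ⟨k, hk, h⟩ := (hX.zeros β hβ _).mp hz
    exact ⟨k, hk, h.symm⟩
  have hc : ∀ k ≤ 3, ContinuousOn (fun β => X k β - bb β) (Ioo (-1) 0) := fun k hk =>
    (hX.cont k hk).sub (Complex.continuous_ofReal.comp_continuousOn bb_cont)
  obtain ⟨k, hk, hk0⟩ := hpt (-1/2) ⟨by norm_num, by norm_num⟩
  have hk1 : 1 ≤ k := by
    rcases Nat.eq_zero_or_pos k with h | h
    · exfalso
      have h1 := (hX.real (-1/2) ⟨by norm_num, by norm_num⟩).2
      rw [h] at hk0
      rw [hk0, Complex.ofReal_re] at h1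
      have := (bb_spec (β := -1/2) (by norm_num) (by norm_num)).1
      linarith
    · exact h
  refine ⟨k, hk1, hk, ?_⟩
  -- connectedness, with the subtype
  have hconn : IsPreconnected (Ioo (-1:ℝ) 0) := isPreconnected_Ioo
  let I := Ioo (-1:ℝ) 0
  have : PreconnectedSpace I := Subtype.preconnectedSpace hconn
  let A : Set I := {β | X k β.1 = bb β.1}
  let B : Set I := ⋃ l ∈ (Finset.range 4).erase k, {β : I | X l β.1 = bb β.1}
  have hcl : ∀ l ≤ 3, IsClosed {β : I | X l β.1 = bb β.1} := by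
    intro l hl
    have h1 : Continuous (fun β : I => X l β.1) := continuousOn_iff_continuous_domRestrict.mp (hX.cont l hl)
    have h2 : Continuous (fun β : I => ((bb β.1 : ℝ) : ℂ)) :=
      Complex.continuous_ofReal.comp (continuousOn_iff_continuous_domRestrict.mp bb_cont)
    exact isClosed_eq h1 h2
  have hA : IsClosed A := hcl k hk
  have hB : IsClosed B := by
    apply Set.Finite.isClosed_biUnion (Finset.finite_toSet _)
    intro l hl
    apply hcl
    have := Finset.mem_range.mp (Finset.mem_of_mem_erase hl)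
    omega
  have hcomp : Bᶜ = A := by
    ext β
    simp only [B, A, Set.mem_compl_iff, Set.mem_iUnion, Set.mem_ofPred_eq, not_exists]
    constructor
    · intro h
      obtain ⟨l, hl, hl0⟩ := hpt β.1 β.2
      by_cases hlk : l = k
      · rw [← hlk]; exact hl0
      · exact absurd hl0 (h l (Finset.mem_erase.mpr ⟨hlk, Finset.mem_range.mpr (by omega)⟩))
    · intro h l hl h'
      have h1 := Finset.mem_erase.mp hl
      have h2 := Finset.mem_range.mp h1.2
      exact h1.1 (hX.distinct β.1 β.2 l (by omega) k hk (h'.trans h.symm))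
  have hAo : IsOpen A := by rw [← hcomp]; exact hB.isOpen_compl
  have huniv : A = univ := by
    apply IsClopen.eq_univ ⟨hA, hAo⟩
    exact ⟨⟨-1/2, by norm_num, by norm_num⟩, hk0⟩
  intro β hβ
  have : (⟨β, hβ⟩ : I) ∈ A := by rw [huniv]; trivial
  exact this

lemma nonreal_norm (X : ℕ → ℝ → ℂ) (hX : IsBranches 3 X) (k : ℕ) (hk1 : 1 ≤ k) (hk : k ≤ 3)
    (hreal : ∀ β ∈ Ioo (-1 : ℝ) 0, X k β = bb β) (l : ℕ) (hl1 : 1 ≤ l) (hl : l ≤ 3) (hlk : l ≠ k)
    (β : ℝ) (hβ : β ∈ Ioo (-1 : ℝ) 0) : ‖X l β‖ ^ 2 = qq β := by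
  have hz : G 3 β (X l β) = 0 := (hX.zeros β hβ _).mpr ⟨l, hl, rfl⟩
  obtain ⟨j, hj, hj0⟩ := (branches.zeros β hβ _).mp hz
  have h0 : G 3 β (Y 0 β) = 0 := (branches.zeros β hβ _).mpr ⟨0, by norm_num, rfl⟩
  have hY3 : ‖Y 3 β‖ = ‖Y 1 β‖ := by
    have := branches.conj β hβ 1 le_rfl (by norm_num)
    rw [show 3 + 1 - 1 = 3 by norm_num] at this
    rw [this, RCLike.norm_conj]
  rcases j with _ | _ | _ | _ | j
  · -- the negative real zero has index 0
    exfalso
    have hr := hX.real β hβ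
    have hz0 : G 3 β (X 0 β) = 0 := (hX.zeros β hβ _).mpr ⟨0, by norm_num, rfl⟩
    obtain ⟨i, hi, hi0⟩ := (branches.zeros β hβ _).mp hz0
    have hd := disc_pos β hβ.1 hβ.2
    have hs : 0 < Real.sqrt (4 * qq β - pp β ^ 2) := Real.sqrt_pos.mpr hd
    have hb := (bb_spec hβ.1 hβ.2).1
    rcases i with _ | _ | _ | _ | i
    · have : l = 0 := hX.distinct β hβ l hl 0 (by norm_num) (hj0.trans hi0.symm)
      omega
    · rw [hi0] at hr
      simp only [Y] at hr
      linarith [hr.1]
    · rw [hi0] at hr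
      simp only [Y, Complex.ofReal_re] at hr
      linarith [hr.2]
    · rw [hi0] at hr
      simp only [Y] at hr
      linarith [hr.1]
    · omega
  · rw [hj0]; exact normSq_Y1 β hβ.1 hβ.2
  · exfalso
    apply hlk
    exact hX.distinct β hβ l hl k hk (hj0.trans (hreal β hβ).symm)
  · rw [hj0, show (0 + 1 + 1 + 1 : ℕ) = 3 by norm_num, hY3]; exact normSq_Y1 β hβ.1 hβ.2
  · omega

/-- MP_9fecad_an, Q1 is false, already for `α = 3`: the branches exist, and for every enumeration
`X` of them no `β*` minimises all of `|X 1|, |X 2|, |X 3|` on `(-1, 0)`. -/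
theorem result : (∃ X, IsBranches 3 X) ∧ ∀ X, IsBranches 3 X →
    ¬ ∃ βs ∈ Ioo (-1 : ℝ) 0, ∀ k, 1 ≤ k → k ≤ 3 → ∀ β ∈ Ioo (-1 : ℝ) 0, ‖X k βs‖ ≤ ‖X k β‖ := by
  refine ⟨⟨Y, branches⟩, ?_⟩
  rintro X hX ⟨s, hs, hmin⟩
  obtain ⟨k, hk1, hk, hreal⟩ := index_real X hX
  have hs1 := hs.1
  have hs2 := hs.2
  -- the minimiser of the real branch lies in a small interval
  have h268 : (-268/1000 : ℝ) ∈ Ioo (-1 : ℝ) 0 := ⟨by norm_num, by norm_num⟩
  have hb := hmin k hk1 hk (-268/1000) h268
  rw [hreal s hs, hreal _ h268, Complex.norm_real, Complex.norm_real, Real.norm_of_nonneg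
    (bb_spec hs1 hs2).1.le, Real.norm_of_nonneg (bb_spec h268.1 h268.2).1.le] at hb
  have hb2 : bb s < 37321/10000 := lt_of_le_of_lt hb bb_min
  have hJ1 : -274/1000 < s := by
    by_contra h
    push Not at h
    have := bb_big s hs1 hs2 (Or.inl h)
    linarith
  have hJ2 : s < -26195/100000 := by
    by_contra h
    push Not at h
    have := bb_big s hs1 hs2 (Or.inr h)
    linarith
  -- another branch
  obtain ⟨l, hl1, hl, hlk⟩ : ∃ l, 1 ≤ l ∧ l ≤ 3 ∧ l ≠ k := by
    by_cases h : k = 1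
    · exact ⟨2, by norm_num, by norm_num, by omega⟩
    · exact ⟨1, by norm_num, by norm_num, by omega⟩
  have h3 : (-1/3 : ℝ) ∈ Ioo (-1 : ℝ) 0 := ⟨by norm_num, by norm_num⟩
  have hle := hmin l hl1 hl (-1/3) h3
  have hsq : ‖X l s‖ ^ 2 ≤ ‖X l (-1/3)‖ ^ 2 := pow_le_pow_left₀ (norm_nonneg _) hle 2
  rw [nonreal_norm X hX k hk1 hk hreal l hl1 hl hlk s hs,
    nonreal_norm X hX k hk1 hk hreal l hl1 hl hlk _ h3] at hsq
  have hq3 := qq_third
  have hbig : 74814/10000 < qq s := by
    rcases le_or_gt s (-679/2500) with h | h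
    · exact step (679/2500) (137/500) (487/1000) s (by norm_num) (by norm_num) (by norm_num)
        (by unfold g; norm_num) (by norm_num) (by linarith) (by linarith) hb2
    rcases le_or_gt s (-2691/10000) with h' | h'
    · exact step (2691/10000) (679/2500) (1229/2500) s (by norm_num) (by norm_num) (by norm_num)
        (by unfold g; norm_num) (by norm_num) (by linarith) (by linarith) hb2
    rcases le_or_gt s (-2663/10000) with h'' | h''
    · exact step (2663/10000) (2691/10000) (993/2000) s (by norm_num) (by norm_num) (by norm_num)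
        (by unfold g; norm_num) (by norm_num) (by linarith) (by linarith) hb2
    rcases le_or_gt s (-2633/10000) with h4 | h4
    · exact step (2633/10000) (2663/10000) (5021/10000) s (by norm_num) (by norm_num) (by norm_num)
        (by unfold g; norm_num) (by norm_num) (by linarith) (by linarith) hb2
    · exact step (5239/20000) (2633/10000) (2541/5000) s (by norm_num) (by norm_num) (by norm_num)
        (by unfold g; norm_num) (by norm_num) (by linarith) (by linarith) hb2
  linarith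

end Pool.Agent.Results.MP_9fecad_an.NoCommonMinimiser
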